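import Mathlib
import Pool.Agent.R250.TreeSpec

/-!
# MP_750254_mp: `Sigma_1` and the spectrum can have different numbers of components

Labels `true`, `false`, all entries of `M` equal to `1` (the rooted binary tree), `nu = 1`, `t = 1` on the edges, the
potential is `sqrt 2` on the vertices of label `true` and `-sqrt 2` on the vertices of label
`false`.  Then `Sigma_1 = (-a, 0) ∪ (0, a)` and `sigma(T) = [-a, a]` with `a = sqrt (27 / 2)`.
-/

open scoped ENNReal ComplexConjugate

noncomputable section

namespace Pool.Agent.Results.MP_750254_mp.ComponentCount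

open Pool.Agent.R250.TR

/-- The conditions on the substitution matrix `M`. -/
def IsSubstitution {A : Type} [Fintype A] [DecidableEq A] (M : Matrix A A ℕ) : Prop :=
  (∀ j, 2 ≤ ∑ k, M j k) ∧ (∀ j, 1 ≤ M j j) ∧ ∃ n : ℕ, ∀ j k, 0 < (M ^ n) j k

/-- `(G, o, a)` is the labelled rooted tree `T(M, j)`: `G` is a tree with root `o`, `a` is the
labelling, the root has label `j`, and every vertex `x` has exactly `M (a x) l` forward neighbours
(neighbours which are farther from the root) of label `l`. -/
def IsSubstitutionTree {A V : Type} (M : Matrix A A ℕ) (j : A) (G : SimpleGraph V) (o : V)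
    (a : V → A) : Prop :=
  G.IsTree ∧ a o = j ∧
    ∀ x l, {y | G.Adj x y ∧ G.dist o y = G.dist o x + 1 ∧ a y = l}.encard = M (a x) l

/-- The Hilbert space `l2(V)` of complex functions on `V` (Mathlib's `lp` with exponent `2`). -/
def L2 (V : Type) : Type := lp (fun _ : V => ℂ) 2

/-- the norm of Mathlib's `lp` -/
instance instNorm (V : Type) : NormedAddCommGroup (L2 V) :=
  @lp.normedAddCommGroup V (fun _ => ℂ) 2 _ _

/-- the vector space structure of Mathlib's `lp` -/
instance instSpace (V : Type) : NormedSpace ℂ (L2 V) :=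
  (lp.instNormedSpace : NormedSpace ℂ (lp (fun _ : V => ℂ) 2))

/-- The value of `φ ∈ l2(V)` at the vertex `x`. -/
def val {V : Type} (φ : L2 V) (x : V) : ℂ := φ.1 x

/-- The bounded operators on `l2(V)`. -/
abbrev Op (V : Type) : Type := L2 V →L[ℂ] L2 V

/-- The spectrum of a bounded operator on `l2(V)`. -/
def spec {V : Type} (T : Op V) : Set ℂ := spectrum ℂ T

/-- The number of connected components of `S` (as a subspace). -/
def numComponents {X : Type} [TopologicalSpace X] (S : Set X) : ℕ :=
  Nat.card (ConnectedComponents S)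

/-- `T` is a label invariant operator with weight `nu = 1` (which is allowed) and with the numbers
`mm j k` and `m j`: it is the bounded operator on `l2(V)` with
`(T φ) x = ∑_{y ~ x} t x y * φ y + w x * φ x`, where `t x y ≠ 0` iff `x ~ y`, `t` is Hermitian,
`|t x y|^2 * M (a x) (a y) = mm (a x) (a y)` for adjacent `x, y`, and `w x = m (a x)`. -/
def IsLabelInvariant {A V : Type} (M : Matrix A A ℕ) (G : SimpleGraph V) (a : V → A)
    (mm : A → A → ℝ) (m : A → ℝ) (T : Op V) : Prop :=
  ∃ t : V → V → ℂ, (∀ x y, t x y ≠ 0 ↔ G.Adj x y) ∧ (∀ x y, t x y = conj (t y x)) ∧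
    (∀ x y, G.Adj x y → ‖t x y‖ ^ 2 * M (a x) (a y) = mm (a x) (a y)) ∧
    ∀ (φ : L2 V) (x : V),
      val (T φ) x = (∑ᶠ (y : V) (_ : G.Adj x y), t x y * val φ y) + m (a x) * val φ x

/-- `Sigma_1`: the real numbers `E` for which the system
`ξ_j (E - m_j + ∑_k m_{jk} ξ_k) + 1 = 0` has a solution with all `ξ_j` in the upper half plane. -/
def Sigma1 {A : Type} [Fintype A] (mm : A → A → ℝ) (m : A → ℝ) : Set ℝ :=
  {E | ∃ ξ : A → ℂ, (∀ j, 0 < (ξ j).im) ∧ ∀ j, ξ j * (E - m j + ∑ k, mm j k * ξ k) + 1 = 0}

/-! ### the tree -/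

/-- the rooted binary tree on words: the neighbours of a word are obtained by adding a letter in
front or by removing the first letter -/
def bt : SimpleGraph (List Bool) where
  Adj x y := (∃ k, x = k :: y) ∨ (∃ k, y = k :: x)
  symm := ⟨fun x y h => h.symm⟩
  loopless := ⟨fun x h => by
    rcases h with ⟨k, h⟩ | ⟨k, h⟩ <;>
    · have := congrArg List.length h
      simp at this⟩

lemma bt_adj {x y : List Bool} : bt.Adj x y ↔ (∃ k, x = k :: y) ∨ (∃ k, y = k :: x) := Iff.rfl

lemma reach (x : List Bool) : bt.Reachable [] x := by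
  induction x with
  | nil => exact SimpleGraph.Reachable.refl _
  | cons k x ih => exact ih.trans (SimpleGraph.Adj.reachable (bt_adj.2 (Or.inr ⟨k, rfl⟩)))

lemma suffix_step {x y v w : List Bool} {k : Bool} (hw : w = k :: v)
    (h : (bt.deleteEdges {s(v, w)}).Adj x y) : (w <:+ x ↔ w <:+ y) := by
  rw [SimpleGraph.deleteEdges_adj] at h
  obtain ⟨h, hne⟩ := h
  have main : ∀ (x y : List Bool) (c : Bool), x = c :: y → s(x, y) ≠ s(v, w) →
      (w <:+ x ↔ w <:+ y) := by
    intro x y c hxy hn
    rw [hxy, List.suffix_cons_iff]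
    constructor
    · rintro (h | h)
      · exfalso
        apply hn
        rw [hw] at h
        have h2 : v = y := (List.cons.inj h).2
        rw [hxy, hw, h, h2]
        exact Sym2.eq_swap
      · exact h
    · exact Or.inr
  rcases h with ⟨c, hc⟩ | ⟨c, hc⟩
  · exact main x y c hc (by simpa using hne)
  · refine (main y x c hc ?_).symm
    rw [Sym2.eq_swap]
    simpa using hne

lemma bt_isTree : bt.IsTree := by
  refine ⟨⟨fun x y => (reach x).symm.trans (reach y)⟩, ?_⟩
  rw [SimpleGraph.isAcyclic_iff_forall_adj_isBridge]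
  have main : ∀ (v w : List Bool) (k : Bool), w = k :: v →
      ¬ (bt.deleteEdges {s(v, w)}).Reachable v w := by
    intro v w k hw hr
    have : ∀ (x y : List Bool), (bt.deleteEdges {s(v, w)}).Walk x y → (w <:+ x ↔ w <:+ y) := by
      intro x y p
      induction p with
      | nil => exact Iff.rfl
      | cons h _ ih => exact (suffix_step hw h).trans ih
    obtain ⟨p⟩ := hr
    have h1 := (this v w p).2 (List.suffix_refl w)
    have h2 := h1.length_le
    rw [hw] at h2
    simp at h2
  intro v w h
  rw [SimpleGraph.isBridge_iff]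
  rcases h with ⟨k, hk⟩ | ⟨k, hk⟩
  · intro hr
    rw [Sym2.eq_swap] at hr
    exact main w v k hk hr.symm
  · exact main v w k hk

lemma walk_length {x y : List Bool} (p : bt.Walk x y) : y.length ≤ x.length + p.length := by
  induction p with
  | nil => simp
  | cons h p ih =>
    rw [SimpleGraph.Walk.length_cons]
    rcases h with ⟨k, hk⟩ | ⟨k, hk⟩
    · rw [hk]
      simp
      omega
    · have h3 := congrArg List.length hk
      rw [List.length_cons] at h3
      omega

lemma dist_eq (y : List Bool) : bt.dist [] y = y.length := by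
  apply le_antisymm
  · induction y with
    | nil => simp
    | cons k y ih =>
      have h1 : bt.dist [] (k :: y) ≤ bt.dist [] y + bt.dist y (k :: y) :=
        SimpleGraph.Connected.dist_triangle bt_isTree.1
      have h2 : bt.dist y (k :: y) = 1 :=
        SimpleGraph.dist_eq_one_iff_adj.2 (bt_adj.2 (Or.inr ⟨k, rfl⟩))
      rw [List.length_cons]
      omega
  · obtain ⟨p, hp⟩ := (reach y).exists_walk_length_eq_dist
    rw [← hp]
    have := walk_length p
    simpa using this

/-- the matrix -/
def M2 : Matrix Bool Bool ℕ := fun _ _ => 1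

lemma isSubstitution_M2 : IsSubstitution M2 := by
  refine ⟨fun j => by simp [M2], fun j => by simp [M2], 1, fun j k => by simp [M2]⟩

lemma isTree_M2 (j : Bool) : IsSubstitutionTree M2 j bt [] (fun x => x.headD j) := by
  refine ⟨bt_isTree, rfl, ?_⟩
  intro x l
  have : {y | bt.Adj x y ∧ bt.dist [] y = bt.dist [] x + 1 ∧ (y.headD j) = l} = {l :: x} := by
    ext y
    rw [Set.mem_ofPred_eq, Set.mem_singleton_iff, dist_eq, dist_eq]
    constructor
    · rintro ⟨h1, h2, h3⟩
      rcases h1 with ⟨k, hk⟩ | ⟨k, hk⟩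
      · rw [hk] at h2
        simp at h2
        omega
      · rw [hk] at h3
        rw [hk]
        simp at h3
        rw [h3]
    · rintro rfl
      exact ⟨bt_adj.2 (Or.inr ⟨l, rfl⟩), by simp, by simp⟩
  rw [this, Set.encard_singleton]
  simp [M2]

/-! ### the operator -/

/-- `1` on the edges -/
def t0 (x y : List Bool) : ℂ := by
  classical
  exact if bt.Adj x y then 1 else 0

lemma t0_adj {x y : List Bool} (h : bt.Adj x y) : t0 x y = 1 := by
  simp [t0, h]

lemma t0_not {x y : List Bool} (h : ¬ bt.Adj x y) : t0 x y = 0 := by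
  simp [t0, h]

lemma sum_root (φ : H) : (∑ᶠ (y : List Bool) (_ : bt.Adj [] y), t0 [] y * φ y) =
    φ [true] + φ [false] := by
  classical
  have h : ∀ y, bt.Adj [] y ↔ y ∈ (↑({[true], [false]} : Finset (List Bool)) : Set (List Bool)) := by
    intro y
    rw [bt_adj]
    constructor
    · rintro (⟨k, hk⟩ | ⟨k, hk⟩)
      · simp at hk
      · rw [hk]
        cases k <;> simp
    · intro hy
      simp only [Finset.coe_insert, Finset.coe_singleton, Set.mem_insert_iff,
        Set.mem_singleton_iff] at hy
      rcases hy with rfl | rfl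
      · exact Or.inr ⟨true, rfl⟩
      · exact Or.inr ⟨false, rfl⟩
  have e : (∑ᶠ (y : List Bool) (_ : bt.Adj [] y), t0 [] y * φ y) =
      ∑ᶠ (y : List Bool) (_ : y ∈ (↑({[true], [false]} : Finset (List Bool)) : Set (List Bool))),
        t0 [] y * φ y := by
    simp only [h]
  rw [e, finsum_mem_coe_finset, Finset.sum_pair (by simp)]
  rw [t0_adj (bt_adj.2 (Or.inr ⟨true, rfl⟩)), t0_adj (bt_adj.2 (Or.inr ⟨false, rfl⟩))]
  simp

lemma sum_cons (φ : H) (c : Bool) (x : List Bool) :
    (∑ᶠ (y : List Bool) (_ : bt.Adj (c :: x) y), t0 (c :: x) y * φ y) =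
    φ (true :: c :: x) + φ (false :: c :: x) + φ x := by
  classical
  have h : ∀ y, bt.Adj (c :: x) y ↔
      y ∈ (↑({true :: c :: x, false :: c :: x, x} : Finset (List Bool)) : Set (List Bool)) := by
    intro y
    rw [bt_adj]
    constructor
    · rintro (⟨k, hk⟩ | ⟨k, hk⟩)
      · rw [(List.cons.inj hk).2]
        simp
      · rw [hk]
        cases k <;> simp
    · intro hy
      simp only [Finset.coe_insert, Finset.coe_singleton, Set.mem_insert_iff,
        Set.mem_singleton_iff] at hy
      rcases hy with rfl | rfl | rfl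
      · exact Or.inr ⟨true, rfl⟩
      · exact Or.inr ⟨false, rfl⟩
      · exact Or.inl ⟨c, rfl⟩
  have e : (∑ᶠ (y : List Bool) (_ : bt.Adj (c :: x) y), t0 (c :: x) y * φ y) =
      ∑ᶠ (y : List Bool) (_ : y ∈ (↑({true :: c :: x, false :: c :: x, x} :
        Finset (List Bool)) : Set (List Bool))), t0 (c :: x) y * φ y := by
    simp only [h]
  have n1 : true :: c :: x ∉ ({false :: c :: x, x} : Finset (List Bool)) := by
    simp only [Finset.mem_insert, Finset.mem_singleton]
    rintro (h | h)
    · simp at h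
    · have := congrArg List.length h
      simp at this
      omega
  have n2 : false :: c :: x ∉ ({x} : Finset (List Bool)) := by
    simp only [Finset.mem_singleton]
    intro h
    have := congrArg List.length h
    simp at this
    omega
  rw [e, finsum_mem_coe_finset, Finset.sum_insert n1, Finset.sum_insert n2, Finset.sum_singleton]
  rw [t0_adj (bt_adj.2 (Or.inr ⟨true, rfl⟩)), t0_adj (bt_adj.2 (Or.inr ⟨false, rfl⟩)),
    t0_adj (bt_adj.2 (Or.inl ⟨c, rfl⟩))]
  ring

/-- the potential -/
def m2 (j : Bool) : ℝ := if j then √2 else -√2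

/-- the operator on `L2 (List Bool)` -/
def TL (j : Bool) : Op (List Bool) := Top (m2 j) (√2)

lemma isLabelInvariant (j : Bool) : IsLabelInvariant M2 bt (fun x => x.headD j) (fun _ _ => 1) m2
    (TL j) := by
  refine ⟨t0, ?_, ?_, ?_, ?_⟩
  · intro x y
    by_cases h : bt.Adj x y
    · simp [t0_adj h, h]
    · simp [t0_not h, h]
  · intro x y
    by_cases h : bt.Adj x y
    · simp [t0_adj h, t0_adj h.symm]
    · simp [t0_not h, t0_not (fun h2 => h (SimpleGraph.Adj.symm h2))]
  · intro x y h
    simp [t0_adj h, M2]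
  · intro φ' x
    let φ : H := φ'
    have hval : ∀ y, val φ' y = φ y := fun _ => rfl
    have hval2 : ∀ y, val (TL j φ') y = Top (m2 j) (√2) φ y := fun _ => rfl
    simp only [hval, hval2]
    match x with
    | [] =>
      rw [Top_nil, sum_root]
      simp only [List.headD_nil]
      ring
    | true :: x =>
      rw [Top_cons_true, sum_cons]
      simp only [List.headD_cons, m2, if_true]
      ring
    | false :: x =>
      rw [Top_cons_false, sum_cons]
      simp only [List.headD_cons, m2, Bool.false_eq_true, if_false, Complex.ofReal_neg]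
      ring

/-! ### the set `Sigma_1` -/

/-- `sqrt 2` satisfies the numerical hypotheses of the spectral lemmas with `q = sqrt 6` -/
lemma num : 0 < √2 ∧ √2 < √6 ∧ √6 ^ 2 = 3 * √2 ^ 2 ∧ √2 ^ 2 = 2 := by
  have h2 : √2 ^ 2 = 2 := Real.sq_sqrt (by norm_num)
  have h6 : √6 ^ 2 = 6 := Real.sq_sqrt (by norm_num)
  refine ⟨by positivity, Real.sqrt_lt_sqrt (by norm_num) (by norm_num), ?_, h2⟩
  rw [h2, h6]
  norm_num

lemma a_eq : 3 / 2 * √6 = √(27 / 2) := by
  have h6 : √6 ^ 2 = 6 := Real.sq_sqrt (by norm_num)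
  symm
  rw [Real.sqrt_eq_iff_eq_sq (by norm_num) (by positivity), mul_pow, h6]
  norm_num

/-- a solution of the system gives a root of the cubic in the upper half plane -/
lemma cubic (s E : ℝ) (hs2 : s ^ 2 = 2) (ξ η : ℂ) (h1 : ξ * (E - s + (ξ + η)) + 1 = 0)
    (h2 : η * (E + s + (ξ + η)) + 1 = 0) (him : 0 < (ξ + η).im) :
    E ≠ 0 ∧ E ^ 2 < 27 / 2 := by
  have hs2' : (s : ℂ) ^ 2 = 2 := by exact_mod_cast hs2
  set X : ℂ := E + (ξ + η) with hX
  have hXim : 0 < X.im := by
    rw [hX, Complex.add_im, Complex.ofReal_im, zero_add]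
    exact him
  have hc : X ^ 3 - E * X ^ 2 + 2 * E = 0 := by
    have e1 : ξ * (X - s) = -1 := by rw [hX]; linear_combination h1
    have e2 : η * (X + s) = -1 := by rw [hX]; linear_combination h2
    have e3 : X - E = ξ + η := by rw [hX]; ring
    linear_combination (X ^ 2 - s ^ 2) * e3 + (X + s) * e1 + (X - s) * e2 + (X - E) * hs2'
  obtain ⟨x, y⟩ := X
  simp only at hXim
  have hre := congrArg Complex.re hc
  have him2 := congrArg Complex.im hc
  simp [pow_succ, Complex.mul_re, Complex.mul_im] at hre him2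
  have hy2 : y ^ 2 = x * (3 * x - 2 * E) := by
    have : y * (y ^ 2 - x * (3 * x - 2 * E)) = 0 := by linear_combination -him2
    rcases mul_eq_zero.1 this with h | h
    · linarith
    · linarith
  have hx : x * (2 * x - E) ^ 2 = E := by
    linear_combination (-1 / 2) * hre + (-1 / 2) * (3 * x - E) * hy2
  have hypos : 0 < y ^ 2 := by positivity
  have hE : E ≠ 0 := by
    rintro rfl
    have h3 : x ^ 3 = 0 := by linarith
    have h4 : x = 0 := by simpa using h3
    rw [h4] at hy2
    simp at hy2
    linarith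
  refine ⟨hE, ?_⟩
  have hE2 : 0 < E ^ 2 := by positivity
  set t : ℝ := x / E with ht
  have hxt : x = t * E := by rw [ht]; field_simp
  have k1 : E ^ 2 * (t * (2 * t - 1) ^ 2) = 1 := by
    have : E * (E ^ 2 * (t * (2 * t - 1) ^ 2)) = E * 1 := by
      rw [hxt] at hx
      linear_combination hx
    exact mul_left_cancel₀ hE this
  have k2 : y ^ 2 = E ^ 2 * (t * (3 * t - 2)) := by
    rw [hxt] at hy2
    linear_combination hy2
  have k3 : 0 < t * (2 * t - 1) ^ 2 := by
    by_contra h
    push Not at h
    have := mul_nonpos_of_nonneg_of_nonpos hE2.le h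
    linarith
  have k4 : 0 < t := by
    by_contra h
    push Not at h
    have := mul_nonpos_of_nonpos_of_nonneg h (sq_nonneg (2 * t - 1))
    linarith
  have k5 : 0 < t * (3 * t - 2) := by
    by_contra h
    push Not at h
    have := mul_nonpos_of_nonneg_of_nonpos hE2.le h
    linarith
  have k6 : 2 / 3 < t := by
    have := (pos_iff_pos_of_mul_pos k5).1 k4
    linarith
  have k7 : 2 / 27 < t * (2 * t - 1) ^ 2 := by
    have h1 : 1 / 3 < 2 * t - 1 := by linarith
    have h2 : (1 / 3) ^ 2 < (2 * t - 1) ^ 2 := pow_lt_pow_left₀ h1 (by norm_num) (by norm_num)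
    calc (2 : ℝ) / 27 = 2 / 3 * (1 / 3) ^ 2 := by norm_num
      _ < t * (2 * t - 1) ^ 2 := by
        apply mul_lt_mul k6 h2.le (by norm_num) k4.le
  by_contra h
  push Not at h
  have : 1 < E ^ 2 * (t * (2 * t - 1) ^ 2) := by
    calc (1 : ℝ) = 27 / 2 * (2 / 27) := by norm_num
      _ < E ^ 2 * (t * (2 * t - 1) ^ 2) := by
        apply mul_lt_mul' h k7 (by norm_num) hE2
  linarith

lemma inv_im_pos (z : ℂ) (hz : 0 < z.im) : 0 < (-1 / z).im := by
  have h0 : z ≠ 0 := by
    rintro rfl
    simp at hz
  have h1 : 0 < Complex.normSq z := Complex.normSq_pos.2 h0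
  rw [neg_div, one_div, Complex.neg_im, Complex.inv_im]
  rw [neg_div, neg_neg]
  exact div_pos hz h1

/-- the converse -/
lemma cubic_conv (s E : ℝ) (hs2 : s ^ 2 = 2) (hE : E ≠ 0) (hE2 : E ^ 2 < 27 / 2) :
    ∃ ξ η : ℂ, 0 < ξ.im ∧ 0 < η.im ∧ ξ * (E - s + (ξ + η)) + 1 = 0 ∧
      η * (E + s + (ξ + η)) + 1 = 0 := by
  have hs2' : (s : ℂ) ^ 2 = 2 := by exact_mod_cast hs2
  have hEp : 0 < E ^ 2 := by positivity
  -- choice of `t`
  obtain ⟨t, ht1, ht2⟩ : ∃ t : ℝ, 2 / 3 < t ∧ t * (2 * t - 1) ^ 2 = 1 / E ^ 2 := by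
    have hcont : ContinuousOn (fun t : ℝ => t * (2 * t - 1) ^ 2) (Set.Icc (2 / 3) (1 + 1 / E ^ 2)) :=
      by fun_prop
    have hp : 0 < 1 / E ^ 2 := by positivity
    have hle : (2 : ℝ) / 3 ≤ 1 + 1 / E ^ 2 := by linarith
    have hlow : 2 / 27 < 1 / E ^ 2 := by
      rw [lt_div_iff₀ hEp]
      linarith
    have hmem : 1 / E ^ 2 ∈ Set.Icc ((fun t : ℝ => t * (2 * t - 1) ^ 2) (2 / 3))
        ((fun t : ℝ => t * (2 * t - 1) ^ 2) (1 + 1 / E ^ 2)) := by
      constructor
      · norm_num at hlow ⊢
        exact hlow.le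
      · have h1 : (1 : ℝ) ≤ (2 * (1 + 1 / E ^ 2) - 1) ^ 2 := by
          apply one_le_pow₀
          linarith
        show 1 / E ^ 2 ≤ (1 + 1 / E ^ 2) * (2 * (1 + 1 / E ^ 2) - 1) ^ 2
        nlinarith
    obtain ⟨t, ht, ht2⟩ := intermediate_value_Icc hle hcont hmem
    refine ⟨t, ?_, ht2⟩
    rcases ht.1.lt_or_eq with h | h
    · exact h
    · exfalso
      rw [← h] at ht2
      norm_num at ht2 hlow
      rw [← ht2] at hlow
      norm_num at hlow
  have ht3 : E ^ 2 * (t * (2 * t - 1) ^ 2) = 1 := by
    rw [ht2]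
    field_simp
  have hpos : 0 < E ^ 2 * (t * (3 * t - 2)) := by
    have : 0 < 3 * t - 2 := by linarith
    have : 0 < t := by linarith
    positivity
  set x : ℝ := t * E with hx
  set y : ℝ := √(E ^ 2 * (t * (3 * t - 2))) with hy
  have hy0 : 0 < y := Real.sqrt_pos.2 hpos
  have hy2 : y ^ 2 = x * (3 * x - 2 * E) := by
    rw [hy, Real.sq_sqrt hpos.le, hx]
    ring
  have hx2 : x * (2 * x - E) ^ 2 = E := by
    rw [hx]
    linear_combination E * ht3
  set X : ℂ := ⟨x, y⟩ with hX
  have hc : X ^ 3 - E * X ^ 2 + 2 * E = 0 := by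
    apply Complex.ext
    · simp [pow_succ, Complex.mul_re, Complex.mul_im, hX]
      linear_combination (-2) * hx2 - (3 * x - E) * hy2
    · simp [pow_succ, Complex.mul_re, Complex.mul_im, hX]
      linear_combination (-y) * hy2
  have hm : X - s ≠ 0 := by
    intro h
    have := congrArg Complex.im h
    simp [hX] at this
    linarith
  have hp : X + s ≠ 0 := by
    intro h
    have := congrArg Complex.im h
    simp [hX] at this
    linarith
  have hsum : (E : ℂ) + (-1 / (X - s) + -1 / (X + s)) = X := by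
    field_simp
    linear_combination (-1 : ℂ) * hc + (X - E) * hs2'
  refine ⟨-1 / (X - s), -1 / (X + s), ?_, ?_, ?_, ?_⟩
  · apply inv_im_pos
    simpa [hX] using hy0
  · apply inv_im_pos
    simpa [hX] using hy0
  · have e : (E : ℂ) - s + (-1 / (X - s) + -1 / (X + s)) = X - s := by linear_combination hsum
    rw [e]
    field_simp
    ring
  · have e : (E : ℂ) + s + (-1 / (X - s) + -1 / (X + s)) = X + s := by linear_combination hsum
    rw [e]
    field_simp
    ring

lemma norm_rel (s E : ℝ) (ξ η : ℂ) (h1 : ξ * (E - s + (ξ + η)) + 1 = 0)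
    (h2 : η * (E + s + (ξ + η)) + 1 = 0) (him : 0 < (ξ + η).im) :
    ‖-ξ‖ ^ 2 + ‖-η‖ ^ 2 = 1 := by
  have main : ∀ (z : ℂ) (r : ℝ), z * (r + (ξ + η)) + 1 = 0 → ‖z‖ ^ 2 * (ξ + η).im = z.im := by
    intro z r h
    have h3 : conj z * z * (r + (ξ + η)) = -conj z := by linear_combination conj z * h
    rw [Complex.conj_mul'] at h3
    have h4 := congrArg Complex.im h3
    rw [← Complex.ofReal_pow, Complex.im_ofReal_mul, Complex.neg_im, Complex.conj_im] at h4
    simpa using h4
  have e1 := main ξ (E - s) (by push_cast; exact h1)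
  have e2 := main η (E + s) (by push_cast; exact h2)
  have e3 : (‖ξ‖ ^ 2 + ‖η‖ ^ 2) * (ξ + η).im = 1 * (ξ + η).im := by
    rw [add_mul, e1, e2, one_mul, Complex.add_im]
  rw [norm_neg, norm_neg]
  exact mul_right_cancel₀ him.ne' e3

lemma Sigma1_eq : Sigma1 (fun _ _ : Bool => 1) m2 =
    Set.Ioo (-√(27 / 2)) 0 ∪ Set.Ioo 0 (√(27 / 2)) := by
  have hiff : ∀ E : ℝ, E ∈ Sigma1 (fun _ _ : Bool => 1) m2 ↔ E ≠ 0 ∧ E ^ 2 < 27 / 2 := by
    intro E
    constructor
    · rintro ⟨ξ, him, h⟩
      have h1 := h true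
      have h2 := h false
      simp only [m2, if_true, Bool.false_eq_true, if_false, Fintype.sum_bool,
        Complex.ofReal_one, one_mul, Complex.ofReal_neg, sub_neg_eq_add] at h1 h2
      refine cubic (√2) E num.2.2.2 (ξ true) (ξ false) h1 h2 ?_
      rw [Complex.add_im]
      exact add_pos (him true) (him false)
    · rintro ⟨h0, h1⟩
      obtain ⟨ξ, η, a1, a2, a3, a4⟩ := cubic_conv (√2) E num.2.2.2 h0 h1
      refine ⟨fun j => if j then ξ else η, ?_, ?_⟩
      · intro j
        cases j
        · simpa using a2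
        · simpa using a1
      · intro j
        cases j
        · simp only [m2, if_true, Bool.false_eq_true, if_false, Fintype.sum_bool,
            Complex.ofReal_one, one_mul, Complex.ofReal_neg, sub_neg_eq_add]
          exact a4
        · simp only [m2, if_true, Bool.false_eq_true, if_false, Fintype.sum_bool,
            Complex.ofReal_one, one_mul]
          exact a3
  ext E
  rw [hiff]
  have ha : 0 < √(27 / 2) := by positivity
  have hsq : √(27 / 2) ^ 2 = (27 : ℝ) / 2 := Real.sq_sqrt (by norm_num)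
  constructor
  · rintro ⟨h0, h1⟩
    rw [← hsq] at h1
    have h2 := abs_lt_of_sq_lt_sq' h1 ha.le
    rcases lt_or_gt_of_ne h0 with h | h
    · exact Or.inl ⟨h2.1, h⟩
    · exact Or.inr ⟨h, h2.2⟩
  · rintro (⟨h1, h2⟩ | ⟨h1, h2⟩)
    · refine ⟨h2.ne, ?_⟩
      rw [← hsq]
      exact sq_lt_sq' h1 (by linarith)
    · refine ⟨h1.ne', ?_⟩
      rw [← hsq]
      exact sq_lt_sq' (by linarith) h2

lemma spectrum_eq (j : Bool) : spectrum ℂ (Top (m2 j) (√2)) =
    (fun x : ℝ => (x : ℂ)) '' Set.Icc (-√(27 / 2)) (√(27 / 2)) := by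
  obtain ⟨n1, n2, n3, n4⟩ := num
  apply Set.Subset.antisymm
  · intro z hz
    have hr : |m2 j| ≤ √2 := by
      cases j
      · simp [m2, abs_of_nonneg n1.le]
      · simp [m2, abs_of_nonneg n1.le]
    obtain ⟨x, hx, hxz⟩ := spec_subset (m2 j) (√2) (√6) n1 n2 n3 n4 hr z hz
    rw [a_eq] at hx
    exact ⟨x, hx, hxz⟩
  · have hcl : IsClosed {x : ℝ | (x : ℂ) ∈ spectrum ℂ (Top (m2 j) (√2))} :=
      (spectrum.isClosed (𝕜 := ℂ) (Top (m2 j) (√2))).preimage Complex.continuous_ofReal
    have hsub : Sigma1 (fun _ _ : Bool => 1) m2 ⊆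
        {x : ℝ | (x : ℂ) ∈ spectrum ℂ (Top (m2 j) (√2))} := by
      rintro E ⟨ξ, him, h⟩
      have h1 := h true
      have h2 := h false
      simp only [m2, if_true, Bool.false_eq_true, if_false, Fintype.sum_bool,
        Complex.ofReal_one, one_mul, Complex.ofReal_neg, sub_neg_eq_add] at h1 h2
      have h3 : 0 < (ξ true + ξ false).im := by
        rw [Complex.add_im]
        exact add_pos (him true) (him false)
      exact mem_spec (m2 j) (√2) E (-ξ true) (-ξ false) (by linear_combination -h1)
        (by linear_combination -h2) (norm_rel _ E _ _ h1 h2 h3)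
    have hsub2 := hcl.closure_subset_iff.2 hsub
    have ha : 0 < √(27 / 2 : ℝ) := by positivity
    rw [Sigma1_eq, closure_union, closure_Ioo (by linarith [ha]), closure_Ioo ha.ne] at hsub2
    rintro z ⟨x, hx, rfl⟩
    apply hsub2
    rcases le_total x 0 with h | h
    · exact Or.inl ⟨hx.1, h⟩
    · exact Or.inr ⟨h, hx.2⟩

/-! ### connected components -/

lemma card_one {X : Type} [TopologicalSpace X] (S : Set X) (hne : S.Nonempty)
    (hS : IsPreconnected S) : numComponents S = 1 := by
  unfold numComponents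
  have : PreconnectedSpace S := isPreconnected_iff_preconnectedSpace.1 hS
  rw [Nat.card_eq_one_iff_unique]
  refine ⟨⟨?_⟩, ?_⟩
  · intro x y
    obtain ⟨x, rfl⟩ := ConnectedComponents.surjective_coe x
    obtain ⟨y, rfl⟩ := ConnectedComponents.surjective_coe y
    rw [ConnectedComponents.coe_eq_coe]
    rw [PreconnectedSpace.connectedComponent_eq_univ, PreconnectedSpace.connectedComponent_eq_univ]
  · obtain ⟨x, hx⟩ := hne
    exact ⟨ConnectedComponents.mk ⟨x, hx⟩⟩

lemma card_two (a : ℝ) (ha : 0 < a) :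
    numComponents (Set.Ioo (-a) 0 ∪ Set.Ioo 0 a) = 2 := by
  unfold numComponents
  set S : Set ℝ := Set.Ioo (-a) 0 ∪ Set.Ioo 0 a with hS
  let f : S → Bool := fun x => decide (0 < (x : ℝ))
  have hf : Continuous f := by
    apply (IsLocallyConstant.iff_exists_open f).2 ?_ |>.continuous
    intro x
    rcases x.2 with hx | hx
    · refine ⟨{y : S | (y : ℝ) < 0}, isOpen_lt continuous_subtype_val continuous_const, hx.2, ?_⟩
      intro y hy
      have hy' : (y : ℝ) < 0 := hy
      simp only [f]
      rw [decide_eq_false (not_lt.2 hy'.le), decide_eq_false (not_lt.2 hx.2.le)]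
    · refine ⟨{y : S | 0 < (y : ℝ)}, isOpen_lt continuous_const continuous_subtype_val, hx.1, ?_⟩
      intro y hy
      have hy' : 0 < (y : ℝ) := hy
      simp only [f]
      rw [decide_eq_true hy', decide_eq_true hx.1]
  have hfib : ∀ x y : S, f x = f y →
      (ConnectedComponents.mk x) = (ConnectedComponents.mk y) := by
    intro x y hxy
    rw [ConnectedComponents.coe_eq_coe']
    have hpre : IsPreconnected ((fun z : S => (z : ℝ)) ⁻¹' (Set.uIcc (x : ℝ) (y : ℝ))) := by
      have hsub : Set.uIcc (x : ℝ) (y : ℝ) ⊆ Set.range (fun z : S => (z : ℝ)) := by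
        have : Set.uIcc (x : ℝ) (y : ℝ) ⊆ S := by
          by_cases h0 : 0 < (x : ℝ)
          · have h1 : f x = true := by simp [f, h0]
            rw [h1] at hxy
            have h2 : 0 < (y : ℝ) := by
              have := hxy.symm
              simpa [f] using this
            have hx2 : (x : ℝ) ∈ Set.Ioo 0 a := by
              rcases x.2 with h | h
              · exact absurd h.2 (not_lt.2 h0.le)
              · exact h
            have hy2 : (y : ℝ) ∈ Set.Ioo 0 a := by
              rcases y.2 with h | h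
              · exact absurd h.2 (not_lt.2 h2.le)
              · exact h
            exact (Set.ordConnected_Ioo.uIcc_subset hx2 hy2).trans Set.subset_union_right
          · have h1 : f x = false := by simp [f, h0]
            rw [h1] at hxy
            have h2 : ¬ 0 < (y : ℝ) := by
              have := hxy.symm
              simpa [f] using this
            have hx2 : (x : ℝ) ∈ Set.Ioo (-a) 0 := by
              rcases x.2 with h | h
              · exact h
              · exact absurd h.1 h0
            have hy2 : (y : ℝ) ∈ Set.Ioo (-a) 0 := by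
              rcases y.2 with h | h
              · exact h
              · exact absurd h.1 h2
            exact (Set.ordConnected_Ioo.uIcc_subset hx2 hy2).trans Set.subset_union_left
        intro z hz
        exact ⟨⟨z, this hz⟩, rfl⟩
      exact (Topology.IsInducing.subtypeVal.isPreconnected_image).1 (by
        rw [Set.image_preimage_eq_of_subset hsub]
        exact isPreconnected_uIcc)
    exact hpre.subset_connectedComponent (x := y) Set.right_mem_uIcc Set.left_mem_uIcc
  let g : ConnectedComponents S → Bool := hf.connectedComponentsLift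
  have hg : ∀ x : S, g (ConnectedComponents.mk x) = f x := fun x => rfl
  have hbij : Function.Bijective g := by
    constructor
    · intro x y hxy
      obtain ⟨x, rfl⟩ := ConnectedComponents.surjective_coe x
      obtain ⟨y, rfl⟩ := ConnectedComponents.surjective_coe y
      rw [hg, hg] at hxy
      exact hfib _ _ hxy
    · intro b
      cases b
      · have hm : -(a / 2) ∈ S := Or.inl ⟨by linarith, by linarith⟩
        refine ⟨ConnectedComponents.mk ⟨-(a / 2), hm⟩, ?_⟩
        rw [hg]
        have : ¬ (0 : ℝ) < -(a / 2) := by linarith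
        simp only [f]
        exact decide_eq_false this
      · have hm : a / 2 ∈ S := Or.inr ⟨by linarith, by linarith⟩
        refine ⟨ConnectedComponents.mk ⟨a / 2, hm⟩, ?_⟩
        rw [hg]
        simp only [f]
        exact decide_eq_true (by linarith : (0 : ℝ) < a / 2)
  rw [Nat.card_congr (Equiv.ofBijective g hbij)]
  simp

end Pool.Agent.Results.MP_750254_mp.ComponentCount

open Pool.Agent.Results.MP_750254_mp.ComponentCount in
/-- **MP_750254_mp Q1 (yes).**  There are a substitution matrix `M` over two labels and real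
numbers `mm j k`, `m j` such that `Sigma_1` has exactly two connected components (it is
`(-a, 0) ∪ (0, a)`, `a = sqrt (27/2)`), whereas, for both root labels `j`, there is a label
invariant operator `T` with these numbers on the tree `T(M, j)` (with `nu = 1`) whose spectrum is
connected (it is `[-a, a]`). -/
theorem Pool.Agent.Results.MP_750254_mp.ComponentCount.result :
    ∃ (M : Matrix Bool Bool ℕ) (mm : Bool → Bool → ℝ) (m : Bool → ℝ),
      IsSubstitution M ∧ numComponents (Sigma1 mm m) = 2 ∧
      Sigma1 mm m = Set.Ioo (-√(27 / 2)) 0 ∪ Set.Ioo 0 (√(27 / 2)) ∧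
      ∀ j : Bool, ∃ (V : Type) (G : SimpleGraph V) (o : V) (a : V → Bool) (T : Op V),
        IsSubstitutionTree M j G o a ∧ IsLabelInvariant M G a mm m T ∧
        numComponents (spec T) = 1 ∧
        spec T = (fun x : ℝ => (x : ℂ)) '' Set.Icc (-√(27 / 2)) (√(27 / 2)) := by
  have ha : (0 : ℝ) < √(27 / 2) := by positivity
  refine ⟨M2, fun _ _ => 1, m2, isSubstitution_M2, ?_, Sigma1_eq, ?_⟩
  · rw [Sigma1_eq]
    exact card_two _ ha
  · intro j
    have hsp : spec (TL j) = (fun x : ℝ => (x : ℂ)) '' Set.Icc (-√(27 / 2)) (√(27 / 2)) :=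
      spectrum_eq j
    refine ⟨List Bool, bt, [], fun x => x.headD j, TL j, isTree_M2 j, isLabelInvariant j, ?_, hsp⟩
    rw [hsp]
    refine card_one _ ?_ ?_
    · exact ⟨_, ⟨0, ⟨by linarith, ha.le⟩, rfl⟩⟩
    · exact isPreconnected_Icc.image _ Complex.continuous_ofReal.continuousOn
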